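import Pool.Agent.BCF.Main

/-!
# Conjugacy and flip conjugacy of Cantor minimal systems are Borel complete

The definitions are in `Pool.Agent.FlipC.Defs` (`Cantor`, `MinHomeo`, `Conj`, `Factor`),
`Pool.Agent.FlipD.Defs` (`Maps`, `FlipConj`, `BorelPairs`, `FlipPairs`) and `Pool.Agent.BCF.ResDefs`
(`RegExtOf`, `code`).

Isomorphism of graphs on `ℕ` reduces, by one continuous map, to conjugacy and to flip conjugacy of minimal
homeomorphisms of Cantor space, all of them regular almost one-to-one extensions of one minimal
homeomorphism; the same map reduces embeddability of graphs as induced subgraphs to the factor relation.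
In particular flip conjugacy of minimal homeomorphisms of Cantor space is not Borel.
-/

namespace Pool.Agent.Results.MP_fcb99b_an.BorelComplete

open Pool.Agent.BCF (RegExtOf code)
open Pool.Agent.FlipC (Cantor MinHomeo Conj Factor)
open Pool.Agent.FlipD (Maps FlipConj BorelPairs FlipPairs)

theorem result :
    (∃ (F : C(ℕ → ℕ → Bool, Maps)) (B : Maps), MinHomeo B ∧
      (∀ M, MinHomeo (F M) ∧ RegExtOf B (F M)) ∧
      ∀ G H : SimpleGraph ℕ,
        (Conj (F (code G)) (F (code H)) ↔ Nonempty (G ≃g H)) ∧
        (FlipConj (F (code G)) (F (code H)) ↔ Nonempty (G ≃g H)) ∧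
        (Factor (F (code G)) (F (code H)) ↔ Nonempty (H ↪g G))) ∧
    ¬ BorelPairs FlipPairs :=
  ⟨Pool.Agent.BCF.main, Pool.Agent.FlipD.flip_not_borel⟩

end Pool.Agent.Results.MP_fcb99b_an.BorelComplete
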