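import Pool.Agent.FlipD.Final

/-!
# A dichotomy for conjugacy and flip conjugacy of almost one-to-one extensions of an odometer

The definitions are in `Pool.Agent.FlipC.Defs` and `Pool.Agent.FlipD.Defs`.

For the odometer on the inverse limit of the groups `ℤ/n_i`:

* if only finitely many primes divide the `n_i`, then conjugacy, flip conjugacy and the factor relations
  are relatively Borel on the almost one-to-one extensions of the odometer;
* if infinitely many primes divide the `n_i`, then conjugacy, flip conjugacy and the factor relations are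
  hard for analytic sets already on the regular almost one-to-one extensions, and no relation between
  conjugacy and the factor relations (up to inverses) is Borel.

In particular flip conjugacy of minimal homeomorphisms of Cantor space is not Borel.
-/

namespace Pool.Agent.Results.MP_fcb99b_an.OdometerDichotomy

open MeasureTheory Pool.Agent.FlipD
open Pool.Agent.FlipC (Cantor Conj Factor InvFactor)

theorem result :
    (∀ n : ℕ → ℕ, (∀ i, n i ≠ 0) → (∀ i, n i ∣ n (i + 1)) →
      ((PrimeDivs n).Finite →
        RelBorel n Conj ∧ RelBorel n FlipConj ∧ RelBorel n Factor ∧ RelBorel n InvFactor) ∧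
      ((PrimeDivs n).Infinite →
        (∀ A : Set (ℕ → ℕ), AnalyticSet A →
          ∃ f g : (ℕ → ℕ) → Maps, Continuous f ∧ Continuous g ∧
            (∀ a, RegExt n (f a) ∧ RegExt n (g a)) ∧
            (∀ a ∈ A, Conj (f a) (g a)) ∧ ∀ a ∉ A, ¬ Related (f a) (g a)) ∧
        ∀ R : Set (Maps × Maps),
          (∀ T S, RegExt n T → RegExt n S →
            (Conj T S → (T, S) ∈ R) ∧ ((T, S) ∈ R → Related T S)) →
          ¬ BorelPairs R)) ∧
    ¬ BorelPairs FlipPairs := by
  refine ⟨fun n h0 hd => ⟨fun hfin => ?_, fun hinf => ?_⟩, flip_not_borel⟩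
  · have i1 : Od n := ⟨h0, hd⟩
    exact ⟨easy_all n hfin _ (Or.inl rfl), easy_all n hfin _ (Or.inr (Or.inl rfl)),
      easy_all n hfin _ (Or.inr (Or.inr (Or.inl rfl))),
      easy_all n hfin _ (Or.inr (Or.inr (Or.inr rfl)))⟩
  · have i1 : Od n := ⟨h0, hd⟩
    have i2 : Inf n := ⟨hinf⟩
    refine ⟨fun _ hA => ?_, fun R h => not_borel n R (fun T S hT hS => (h T S hT hS).1)
      (fun T S hT hS => (h T S hT hS).2)⟩
    obtain ⟨f, g, h1, h2, h3, h4, h5⟩ := reduction n hA
    refine ⟨f, g, h1, h2, h3, h4, fun a ha hr => ?_⟩
    obtain ⟨k1, k2, k3, k4⟩ := h5 a ha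
    rcases hr with hr | hr | hr | hr
    · exact k1 hr
    · exact k2 hr
    · exact k3 hr
    · exact k4 hr

end Pool.Agent.Results.MP_fcb99b_an.OdometerDichotomy
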